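import Mathlib

/-!
# Positive bases

Finitely many positive real numbers are sums of elements of a finite set of positive real numbers which is linearly
independent over the rational numbers.
-/

set_option autoImplicit false

namespace Pool.Agent.H65.IX

/-- a family which generates an independent family of the same size is independent -/
theorem indep_of_mem {n : ℕ} {m m' : Fin n → ℝ} (hm : LinearIndependent ℚ m)
    (h : ∀ i, m i ∈ Submodule.span ℚ (Set.range m')) : LinearIndependent ℚ m' := by
  rw [linearIndependent_iff_card_eq_finrank_span]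
  refine le_antisymm ?_ (finrank_range_le_card m')
  have h1 := linearIndependent_iff_card_eq_finrank_span.1 hm
  rw [h1]
  have h2 : Submodule.span ℚ (Set.range m) ≤ Submodule.span ℚ (Set.range m') := by
    rw [Submodule.span_le]
    rintro _ ⟨i, rfl⟩
    exact h i
  have hfin : Module.Finite ℚ (Submodule.span ℚ (Set.range m')) :=
    Module.Finite.span_of_finite ℚ (Set.finite_range m')
  exact Submodule.finrank_mono h2

theorem span_of_closure {S : Set ℝ} {x : ℝ} (h : x ∈ AddSubmonoid.closure S) :
    x ∈ Submodule.span ℚ S := by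
  have h1 : AddSubmonoid.closure S ≤ (Submodule.span ℚ S).toAddSubmonoid := by
    rw [AddSubmonoid.closure_le]
    exact Submodule.subset_span
  exact h1 h

/-- one negative coefficient can be removed -/
theorem remove {n : ℕ} (k : ℕ) : ∀ (m : Fin n → ℝ) (a : Fin n → ℤ), (∀ i, 0 < m i) →
    LinearIndependent ℚ m → 0 < ∑ i, (a i : ℝ) * m i → {i | a i < 0}.ncard = k →
    ∃ m' : Fin n → ℝ, (∀ i, 0 < m' i) ∧ LinearIndependent ℚ m' ∧
      (∀ i, m i ∈ AddSubmonoid.closure (Set.range m')) ∧
      ∑ i, (a i : ℝ) * m i ∈ AddSubmonoid.closure (Set.range m') := by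
  induction k with
  | zero =>
    intro m a hm hind hpos hk
    refine ⟨m, hm, hind, fun i => AddSubmonoid.subset_closure ⟨i, rfl⟩, ?_⟩
    refine sum_mem fun i _ => ?_
    have h1 : 0 ≤ a i := by
      by_contra h
      have h2 : {i | a i < 0}.Nonempty := ⟨i, not_le.1 h⟩
      rw [Set.ncard_eq_zero] at hk
      exact h2.ne_empty hk
    obtain ⟨b, hb⟩ := Int.eq_ofNat_of_zero_le h1
    rw [hb]
    have h2 : ((b : ℤ) : ℝ) * m i = b • m i := by simp
    rw [h2]
    exact nsmul_mem (AddSubmonoid.subset_closure (Set.mem_range_self i)) b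
  | succ k ih =>
    intro m a hm hind hpos hk
    have hne : {i | a i < 0}.Nonempty := by
      rw [← Set.ncard_pos]
      omega
    obtain ⟨j, hj⟩ := hne
    have hj' : a j < 0 := hj
    -- the indices with positive coefficients
    obtain ⟨I, hI⟩ : ∃ I : Finset (Fin n), I = Finset.univ.filter (fun i => 0 < a i) := ⟨_, rfl⟩
    have hmj := hm j
    have hP : -(a j : ℝ) * m j < ∑ i ∈ I, (a i : ℝ) * m i := by
      have h1 : ∑ i, (a i : ℝ) * m i ≤ ∑ i ∈ insert j I, (a i : ℝ) * m i := by
        rw [← Finset.sum_filter_add_sum_filter_not Finset.univ (fun i => i ∈ insert j I)]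
        have h2 : ∑ i ∈ Finset.univ.filter (fun i => ¬ i ∈ insert j I), (a i : ℝ) * m i ≤ 0 := by
          refine Finset.sum_nonpos fun i hi => ?_
          rw [Finset.mem_filter, Finset.mem_insert, not_or, hI, Finset.mem_filter] at hi
          have h3 : a i ≤ 0 := by
            by_contra h4
            exact hi.2.2 ⟨Finset.mem_univ _, not_le.1 h4⟩
          have h4 : (a i : ℝ) ≤ 0 := by exact_mod_cast h3
          exact mul_nonpos_of_nonpos_of_nonneg h4 (hm i).le
        have h3 : Finset.univ.filter (fun i => i ∈ insert j I) = insert j I := by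
          ext i
          simp
        rw [h3]
        linarith
      have h4 : j ∉ I := by
        rw [hI, Finset.mem_filter]
        rintro ⟨-, h5⟩
        omega
      rw [Finset.sum_insert h4] at h1
      linarith
    have hA : 0 < ∑ i ∈ I, (a i : ℝ) := by
      refine Finset.sum_pos (fun i hi => ?_) ?_
      · rw [hI, Finset.mem_filter] at hi
        exact_mod_cast hi.2
      · rw [Finset.nonempty_iff_ne_empty]
        rintro h5
        rw [h5, Finset.sum_empty] at hP
        have h6 : (a j : ℝ) < 0 := by exact_mod_cast hj'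
        nlinarith
    obtain ⟨A, hAdef⟩ : ∃ A : ℝ, A = ∑ i ∈ I, (a i : ℝ) := ⟨_, rfl⟩
    obtain ⟨δ, hδ⟩ : ∃ δ : ℝ, δ = (∑ i ∈ I, (a i : ℝ) * (m i / m j) + a j) / A := ⟨_, rfl⟩
    have hsum : ∑ i ∈ I, (a i : ℝ) * (m i / m j) = (∑ i ∈ I, (a i : ℝ) * m i) / m j := by
      rw [Finset.sum_div]
      exact Finset.sum_congr rfl fun i _ => by rw [mul_div_assoc]
    have hδpos : 0 < δ := by
      rw [hδ]
      refine div_pos ?_ (hAdef ▸ hA)
      rw [hsum]
      have h1 : -(a j : ℝ) < (∑ i ∈ I, (a i : ℝ) * m i) / m j := by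
        rw [lt_div_iff₀ hmj]
        exact hP
      linarith
    have ht : ∀ i, ∃ t : ℚ, max 0 (m i / m j - δ) < (t : ℝ) ∧ (t : ℝ) < m i / m j := by
      intro i
      refine exists_rat_btwn (max_lt (div_pos (hm i) hmj) (by linarith))
    choose t0 ht0 ht1 using ht
    obtain ⟨t, htdef⟩ : ∃ t : Fin n → ℚ, t = fun i => if i ∈ I then t0 i else 0 := ⟨_, rfl⟩
    have htnn : ∀ i, 0 ≤ t i := by
      intro i
      rw [htdef]
      by_cases hi : i ∈ I
      · simp only [hi, if_true]
        have h1 : (0 : ℝ) < t0 i := lt_of_le_of_lt (le_max_left _ _) (ht0 i)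
        exact_mod_cast h1.le
      · simp only [hi, if_false, le_refl]
    have htlt : ∀ i, (t i : ℝ) * m j < m i := by
      intro i
      rw [htdef]
      by_cases hi : i ∈ I
      · simp only [hi, if_true]
        have h1 := ht1 i
        rwa [lt_div_iff₀ hmj] at h1
      · simp only [hi, if_false, Rat.cast_zero, zero_mul]
        exact hm i
    have hnI : ∀ i, i ∉ I → t i = 0 := fun i hi => by rw [htdef]; simp only [hi, if_false]
    have hjI : j ∉ I := by
      rw [hI, Finset.mem_filter]
      rintro ⟨-, h5⟩
      omega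
    have hbig : -(a j : ℝ) ≤ ∑ i ∈ I, (a i : ℝ) * t i := by
      have h1 : ∑ i ∈ I, (a i : ℝ) * (m i / m j - δ) ≤ ∑ i ∈ I, (a i : ℝ) * t i := by
        refine Finset.sum_le_sum fun i hi => ?_
        have h2 : (0 : ℝ) ≤ a i := by
          rw [hI, Finset.mem_filter] at hi
          exact_mod_cast hi.2.le
        refine mul_le_mul_of_nonneg_left ?_ h2
        have h3 := lt_of_le_of_lt (le_max_right _ _) (ht0 i)
        rw [htdef]
        simp only [hi, if_true]
        exact h3.le
      have h2 : ∑ i ∈ I, (a i : ℝ) * (m i / m j - δ) = -(a j : ℝ) := by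
        simp only [mul_sub]
        rw [Finset.sum_sub_distrib, ← Finset.sum_mul, ← hAdef, hδ]
        have h3 : A ≠ 0 := by
          rw [hAdef]
          exact hA.ne'
        field_simp
        ring
      linarith
    -- the common denominator
    obtain ⟨N, hN, c, hc⟩ : ∃ N : ℕ, 0 < N ∧ ∃ c : Fin n → ℕ, ∀ i, (c i : ℚ) = N * t i := by
      refine ⟨∏ i, (t i).den, Finset.prod_pos fun i _ => (t i).pos, fun i =>
        (t i).num.toNat * ∏ l ∈ Finset.univ.erase i, (t l).den, ?_⟩
      intro i
      rw [← Finset.mul_prod_erase Finset.univ (fun l => (t l).den) (Finset.mem_univ i)]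
      have h1 : (((t i).num.toNat : ℕ) : ℚ) = (t i).num := by
        have h2 : 0 ≤ (t i).num := Rat.num_nonneg.2 (htnn i)
        have h3 : (((t i).num.toNat : ℕ) : ℤ) = (t i).num := Int.toNat_of_nonneg h2
        exact_mod_cast h3
      push_cast
      rw [h1]
      have h4 : ((t i).den : ℚ) * t i = (t i).num := by
        rw [mul_comm]
        exact Rat.mul_den_eq_num (t i)
      calc ((t i).num : ℚ) * ∏ l ∈ Finset.univ.erase i, ((t l).den : ℚ)
          = ((t i).den * t i) * ∏ l ∈ Finset.univ.erase i, ((t l).den : ℚ) := by rw [h4]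
        _ = _ := by ring
    have hNr : (0 : ℝ) < N := by exact_mod_cast hN
    have hcr : ∀ i, (c i : ℝ) = N * t i := by
      intro i
      have h1 := hc i
      exact_mod_cast congrArg (fun q : ℚ => (q : ℝ)) h1
    obtain ⟨m', hm'⟩ : ∃ m' : Fin n → ℝ, m' = fun i => if i = j then m j / N
        else m i - t i * m j := ⟨_, rfl⟩
    have hm'j : m' j = m j / N := by rw [hm']; simp
    have hm'i : ∀ i, i ≠ j → m' i = m i - t i * m j := fun i hi => by rw [hm']; simp [hi]
    have hpos' : ∀ i, 0 < m' i := by
      intro i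
      by_cases hi : i = j
      · rw [hi, hm'j]
        exact div_pos hmj hNr
      · rw [hm'i i hi]
        have := htlt i
        linarith
    have hmem : ∀ i, m i ∈ AddSubmonoid.closure (Set.range m') := by
      intro i
      by_cases hi : i = j
      · have h1 : m i = N • m' j := by
          rw [hi, hm'j, nsmul_eq_mul]
          field_simp
        rw [h1]
        exact nsmul_mem (AddSubmonoid.subset_closure (Set.mem_range_self j)) N
      · have h1 : m i = m' i + c i • m' j := by
          rw [hm'i i hi, hm'j, nsmul_eq_mul, hcr i]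
          field_simp
          ring
        rw [h1]
        exact add_mem (AddSubmonoid.subset_closure ⟨i, rfl⟩)
          (nsmul_mem (AddSubmonoid.subset_closure (Set.mem_range_self j)) _)
    have hind' : LinearIndependent ℚ m' := indep_of_mem hind fun i => span_of_closure (hmem i)
    obtain ⟨a', ha'⟩ : ∃ a' : Fin n → ℤ, a' = fun i => if i = j then
        N * a j + ∑ i ∈ I, a i * c i else a i := ⟨_, rfl⟩
    have ha'j : a' j = N * a j + ∑ i ∈ I, a i * c i := by rw [ha']; simp
    have ha'i : ∀ i, i ≠ j → a' i = a i := fun i hi => by rw [ha']; simp [hi]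
    have hnn : 0 ≤ a' j := by
      rw [ha'j]
      have h1 : (0 : ℝ) ≤ N * a j + ∑ i ∈ I, (a i : ℝ) * c i := by
        have h2 : ∑ i ∈ I, (a i : ℝ) * c i = N * ∑ i ∈ I, (a i : ℝ) * t i := by
          rw [Finset.mul_sum]
          exact Finset.sum_congr rfl fun i _ => by rw [hcr i]; ring
        rw [h2, ← mul_add]
        refine mul_nonneg hNr.le ?_
        linarith
      exact_mod_cast h1
    have heq : ∑ i, (a' i : ℝ) * m' i = ∑ i, (a i : ℝ) * m i := by
      rw [← Finset.add_sum_erase Finset.univ _ (Finset.mem_univ j),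
        ← Finset.add_sum_erase Finset.univ (fun i => (a i : ℝ) * m i) (Finset.mem_univ j)]
      have h1 : ∑ i ∈ Finset.univ.erase j, (a' i : ℝ) * m' i =
          ∑ i ∈ Finset.univ.erase j, (a i : ℝ) * m i -
            ∑ i ∈ Finset.univ.erase j, (a i : ℝ) * t i * m j := by
        rw [← Finset.sum_sub_distrib]
        refine Finset.sum_congr rfl fun i hi => ?_
        have h2 := Finset.ne_of_mem_erase hi
        rw [ha'i i h2, hm'i i h2]
        ring
      have h2 : ∑ i ∈ Finset.univ.erase j, (a i : ℝ) * t i * m j =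
          (∑ i ∈ I, (a i : ℝ) * t i) * m j := by
        rw [← Finset.sum_mul]
        congr 1
        refine (Finset.sum_subset ?_ ?_).symm
        · intro i hi
          exact Finset.mem_erase.2 ⟨fun h3 => hjI (h3 ▸ hi), Finset.mem_univ _⟩
        · intro i _ hi
          rw [hnI i hi]
          simp
      have h3 : (a' j : ℝ) * m' j = a j * m j + (∑ i ∈ I, (a i : ℝ) * t i) * m j := by
        rw [ha'j, hm'j]
        push_cast
        have h4 : ∑ i ∈ I, (a i : ℝ) * c i = N * ∑ i ∈ I, (a i : ℝ) * t i := by
          rw [Finset.mul_sum]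
          exact Finset.sum_congr rfl fun i _ => by rw [hcr i]; ring
        rw [h4]
        field_simp
      rw [h1, h2, h3]
      ring
    have hcard : {i | a' i < 0}.ncard = k := by
      have h1 : {i | a' i < 0} = {i | a i < 0} \ {j} := by
        ext i
        simp only [Set.mem_ofPred_eq, Set.mem_sdiff, Set.mem_singleton_iff]
        by_cases hi : i = j
        · subst hi
          simp [hnn]
        · simp [hi, ha'i i hi]
      rw [h1, Set.ncard_sdiff_singleton_of_mem hj, hk]
      rfl
    obtain ⟨m'', h1, h2, h3, h4⟩ := ih m' a' hpos' hind' (by rw [heq]; exact hpos) hcard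
    refine ⟨m'', h1, h2, fun i => ?_, by rw [← heq]; exact h4⟩
    have h5 : AddSubmonoid.closure (Set.range m') ≤ AddSubmonoid.closure (Set.range m'') := by
      rw [AddSubmonoid.closure_le]
      rintro _ ⟨l, rfl⟩
      exact h3 l
    exact h5 (hmem i)

/-- finitely many positive real numbers are sums of elements of a finite independent set -/
theorem exists_basis (X : Finset ℝ) (hX : ∀ x ∈ X, 0 < x) :
    ∃ (n : ℕ) (m : Fin n → ℝ), (∀ i, 0 < m i) ∧ LinearIndependent ℚ m ∧
      ∀ x ∈ X, x ∈ AddSubmonoid.closure (Set.range m) := by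
  classical
  induction X using Finset.induction_on with
  | empty =>
    exact ⟨0, Fin.elim0, fun i => i.elim0, linearIndependent_empty_type, by simp⟩
  | insert x X hx ih =>
    obtain ⟨n, m, hm, hind, hmem⟩ := ih fun y hy => hX y (Finset.mem_insert_of_mem hy)
    have hx0 : 0 < x := hX x (Finset.mem_insert_self _ _)
    by_cases hsp : x ∈ Submodule.span ℚ (Set.range m)
    · obtain ⟨q, hq⟩ := (Submodule.mem_span_range_iff_exists_fun ℚ).1 hsp
      obtain ⟨N, hN, a, ha⟩ : ∃ N : ℕ, 0 < N ∧ ∃ a : Fin n → ℤ, ∀ i, (a i : ℚ) = N * q i := by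
        refine ⟨∏ i, (q i).den, Finset.prod_pos fun i _ => (q i).pos, fun i =>
          (q i).num * ∏ l ∈ Finset.univ.erase i, ((q l).den : ℤ), ?_⟩
        intro i
        rw [← Finset.mul_prod_erase Finset.univ (fun l => (q l).den) (Finset.mem_univ i)]
        push_cast
        have h4 : ((q i).den : ℚ) * q i = (q i).num := by
          rw [mul_comm]
          exact Rat.mul_den_eq_num (q i)
        calc ((q i).num : ℚ) * ∏ l ∈ Finset.univ.erase i, ((q l).den : ℚ)
            = ((q i).den * q i) * ∏ l ∈ Finset.univ.erase i, ((q l).den : ℚ) := by rw [h4]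
          _ = _ := by ring
      have hNr : (0 : ℝ) < N := by exact_mod_cast hN
      have hmem1 : ∀ i, m i ∈ AddSubmonoid.closure (Set.range fun i => m i / N) := by
        intro i
        have h1 : m i = N • (m i / N) := by
          rw [nsmul_eq_mul]
          field_simp
        rw [h1]
        exact nsmul_mem (AddSubmonoid.subset_closure (Set.mem_range_self i)) N
      have hsum : ∑ i, (a i : ℝ) * (m i / N) = x := by
        rw [← hq]
        refine Finset.sum_congr rfl fun i _ => ?_
        have h1 : (a i : ℝ) = N * q i := by exact_mod_cast congrArg (fun r : ℚ => (r : ℝ)) (ha i)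
        rw [h1, Rat.smul_def]
        field_simp
      obtain ⟨m', h1, h2, h3, h4⟩ := remove _ (fun i => m i / N) a
        (fun i => div_pos (hm i) hNr) (indep_of_mem hind fun i => span_of_closure (hmem1 i))
        (by rw [hsum]; exact hx0) rfl
      refine ⟨n, m', h1, h2, ?_⟩
      have h5 : AddSubmonoid.closure (Set.range m) ≤ AddSubmonoid.closure (Set.range m') := by
        rw [AddSubmonoid.closure_le]
        rintro _ ⟨i, rfl⟩
        have h6 : AddSubmonoid.closure (Set.range fun i => m i / N) ≤
            AddSubmonoid.closure (Set.range m') := by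
          rw [AddSubmonoid.closure_le]
          rintro _ ⟨l, rfl⟩
          exact h3 l
        exact h6 (hmem1 i)
      intro y hy
      rcases Finset.mem_insert.1 hy with rfl | hy
      · rw [← hsum]
        exact h4
      · exact h5 (hmem y hy)
    · refine ⟨n + 1, Fin.cons x m, ?_, ?_, ?_⟩
      · intro i
        refine Fin.cases ?_ (fun l => ?_) i
        · exact hx0
        · exact hm l
      · rw [linearIndependent_finCons]
        exact ⟨hind, hsp⟩
      · have h5 : AddSubmonoid.closure (Set.range m) ≤
            AddSubmonoid.closure (Set.range (Fin.cons x m : Fin (n + 1) → ℝ)) := by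
          rw [AddSubmonoid.closure_le]
          rintro _ ⟨i, rfl⟩
          exact AddSubmonoid.subset_closure ⟨i.succ, rfl⟩
        intro y hy
        rcases Finset.mem_insert.1 hy with rfl | hy
        · exact AddSubmonoid.subset_closure ⟨0, rfl⟩
        · exact h5 (hmem y hy)

/-- the same with a finite set and lists -/
theorem exists_basis_list (X : Finset ℝ) (hX : ∀ x ∈ X, 0 < x) :
    ∃ M : Finset ℝ, (∀ y ∈ M, 0 < y) ∧ LinearIndependent ℚ (fun y : M => (y : ℝ)) ∧
      ∀ x ∈ X, ∃ l : List ℝ, (∀ y ∈ l, y ∈ M) ∧ l.sum = x := by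
  classical
  obtain ⟨n, m, hm, hind, hmem⟩ := exists_basis X hX
  refine ⟨Finset.univ.image m, ?_, ?_, ?_⟩
  · intro y hy
    obtain ⟨i, -, rfl⟩ := Finset.mem_image.1 hy
    exact hm i
  · have h1 : LinearIndependent ℚ (fun y : Set.range m => (y : ℝ)) := hind.linearIndepOn_id
    have h2 : ((Finset.univ.image m : Finset ℝ) : Set ℝ) = Set.range m := by simp
    have h3 : LinearIndepOn ℚ id ((Finset.univ.image m : Finset ℝ) : Set ℝ) := by
      rw [h2]
      exact h1
    exact h3
  · intro x hx
    obtain ⟨l, hl, hs⟩ := AddSubmonoid.exists_list_of_mem_closure (hmem x hx)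
    refine ⟨l, fun y hy => ?_, hs⟩
    obtain ⟨i, rfl⟩ := hl y hy
    exact Finset.mem_image_of_mem _ (Finset.mem_univ i)

end Pool.Agent.H65.IX
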