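import Pool.Agent.H54.IX.Def

/-!
# Lists of intervals: blocks, fillings, interval exchanges
-/

set_option autoImplicit false

open Classical

namespace Pool.Agent.H54.IX

variable {I A : Type}

/-! ## The left endpoints -/

theorem pre_self (len : I → ℝ) (a : I) (W : List I) : pre len (a :: W) a = 0 := by
  rw [pre, if_pos rfl]

theorem pre_ne (len : I → ℝ) {a b : I} (W : List I) (h : b ≠ a) :
    pre len (b :: W) a = len b + pre len W a := by
  rw [pre, if_neg h]

theorem pre_congr {len len' : I → ℝ} : ∀ (W : List I) (a : I), (∀ b ∈ W, len b = len' b) →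
    pre len W a = pre len' W a := by
  intro W
  induction W with
  | nil => intro a _; rfl
  | cons b W ih =>
    intro a h
    by_cases hb : b = a
    · subst hb
      rw [pre_self, pre_self]
    · rw [pre_ne len W hb, pre_ne len' W hb, h b (by simp),
        ih a (fun c hc => h c (List.mem_cons_of_mem _ hc))]

theorem pre_nonneg (len : I → ℝ) : ∀ (W : List I) (a : I), (∀ b ∈ W, 0 ≤ len b) →
    0 ≤ pre len W a := by
  intro W
  induction W with
  | nil => intro a _; exact le_refl _
  | cons b W ih =>
    intro a h
    by_cases hb : b = a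
    · subst hb
      rw [pre_self]
    · rw [pre_ne len W hb]
      have h1 := h b (by simp)
      have h2 := ih a (fun c hc => h c (List.mem_cons_of_mem _ hc))
      linarith

theorem pre_append_left (len : I → ℝ) : ∀ (U V : List I) (a : I), a ∈ U →
    pre len (U ++ V) a = pre len U a := by
  intro U
  induction U with
  | nil => intro V a h; simp at h
  | cons b U ih =>
    intro V a h
    rw [List.cons_append]
    by_cases hb : b = a
    · subst hb
      rw [pre_self, pre_self]
    · rw [pre_ne len _ hb, pre_ne len _ hb]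
      rw [List.mem_cons] at h
      rcases h with h | h
      · exact absurd h.symm hb
      · rw [ih V a h]

theorem pre_append_right (len : I → ℝ) : ∀ (U V : List I) (a : I), a ∉ U →
    pre len (U ++ V) a = (U.map len).sum + pre len V a := by
  intro U
  induction U with
  | nil => intro V a _; simp
  | cons b U ih =>
    intro V a h
    rw [List.mem_cons, not_or] at h
    rw [List.cons_append, pre_ne len _ (Ne.symm h.1), ih V a h.2, List.map_cons, List.sum_cons]
    ring

theorem pre_add_le (len : I → ℝ) : ∀ (W : List I) (a : I), a ∈ W → (∀ b ∈ W, 0 ≤ len b) →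
    pre len W a + len a ≤ (W.map len).sum := by
  intro W
  induction W with
  | nil => intro a h _; simp at h
  | cons b W ih =>
    intro a h hn
    have hn' : ∀ c ∈ W, 0 ≤ len c := fun c hc => hn c (List.mem_cons_of_mem _ hc)
    rw [List.map_cons, List.sum_cons]
    by_cases hb : b = a
    · subst hb
      rw [pre_self]
      have : 0 ≤ (W.map len).sum := List.sum_nonneg (by
        intro x hx
        obtain ⟨c, hc, rfl⟩ := List.mem_map.1 hx
        exact hn' c hc)
      linarith
    · rw [pre_ne len _ hb]
      rw [List.mem_cons] at h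
      rcases h with h | h
      · exact absurd h.symm hb
      · have := ih a h hn'
        linarith

theorem exists_between_pre (len : I → ℝ) : ∀ (W : List I), W.Nodup → ∀ x : ℝ, 0 ≤ x →
    x < (W.map len).sum → ∃ i ∈ W, pre len W i ≤ x ∧ x < pre len W i + len i := by
  intro W
  induction W with
  | nil =>
    intro _ x h0 h1
    simp at h1
    linarith
  | cons b W ih =>
    intro hn x h0 h1
    rw [List.nodup_cons] at hn
    rw [List.map_cons, List.sum_cons] at h1
    by_cases hx : x < len b
    · exact ⟨b, by simp, by rw [pre_self]; exact h0, by rw [pre_self, zero_add]; exact hx⟩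
    · obtain ⟨i, hi, h2, h3⟩ := ih hn.2 (x - len b) (by linarith) (by linarith)
      have hbi : b ≠ i := fun h => hn.1 (h ▸ hi)
      refine ⟨i, List.mem_cons_of_mem _ hi, ?_, ?_⟩
      · rw [pre_ne len _ hbi]
        linarith
      · rw [pre_ne len _ hbi]
        linarith

theorem flatMap_congr' {B B' : I → List A} {W : List I} (h : ∀ i ∈ W, B i = B' i) :
    W.flatMap B = W.flatMap B' := List.flatMap_congr h

/-- a list whose left endpoints contain those of the coarse list `W` is cut in blocks -/
theorem exists_blocks (len : I → ℝ) (lam : A → ℝ) (W : List I) (U : List A) (hW : W.Nodup)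
    (hU : U.Nodup) (hlen : ∀ i ∈ W, 0 < len i) (hlam : ∀ a ∈ U, 0 < lam a)
    (hs : (W.map len).sum = (U.map lam).sum)
    (hle : ∀ i ∈ W, ∃ a ∈ U, pre lam U a = pre len W i) :
    ∃ B : I → List A, W.flatMap B = U ∧ ∀ i ∈ W, ((B i).map lam).sum = len i := by
  induction W generalizing U with
  | nil =>
    refine ⟨fun _ => [], ?_, by simp⟩
    cases U with
    | nil => rfl
    | cons a U =>
      exfalso
      rw [List.map_nil, List.sum_nil, List.map_cons, List.sum_cons] at hs
      have h1 := hlam a (by simp)
      have h2 : 0 ≤ (U.map lam).sum := List.sum_nonneg (by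
        intro x hx
        obtain ⟨c, hc, rfl⟩ := List.mem_map.1 hx
        exact (hlam c (List.mem_cons_of_mem _ hc)).le)
      linarith
  | cons i W ih =>
    cases W with
    | nil =>
      refine ⟨fun _ => U, by simp, ?_⟩
      intro j hj
      rw [List.mem_singleton] at hj
      subst hj
      rw [← hs]
      simp
    | cons j W =>
      have hij : i ≠ j := by
        rintro rfl
        simp at hW
      have hW' := (List.nodup_cons.1 hW).2
      have hiW := (List.nodup_cons.1 hW).1
      obtain ⟨a, haU, ha⟩ := hle j (by simp)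
      rw [pre_ne len _ hij, pre_self, add_zero] at ha
      obtain ⟨U1, U2, rfl⟩ := List.append_of_mem haU
      have haU1 : a ∉ U1 := by
        intro h
        rw [List.nodup_append] at hU
        exact hU.2.2 a h a (by simp) rfl
      rw [pre_append_right lam U1 _ a haU1, pre_self, add_zero] at ha
      have hU2 : (a :: U2).Nodup := (List.nodup_append.1 hU).2.1
      obtain ⟨B, hB1, hB2⟩ := ih (a :: U2) hW' hU2
        (fun k hk => hlen k (List.mem_cons_of_mem _ hk))
        (fun b hb => hlam b (List.mem_append_right _ hb))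
        (by
          rw [List.map_append, List.sum_append, ha, List.map_cons, List.sum_cons] at hs
          linarith)
        (by
          intro k hk
          have hik : i ≠ k := fun h => hiW (h ▸ hk)
          obtain ⟨b, hbU, hb⟩ := hle k (List.mem_cons_of_mem _ hk)
          rw [pre_ne len _ hik] at hb
          by_cases hbU1 : b ∈ U1
          · exfalso
            rw [pre_append_left lam _ _ _ hbU1] at hb
            have h1 := pre_add_le lam U1 b hbU1
              (fun c hc => (hlam c (List.mem_append_left _ hc)).le)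
            have h2 := hlam b hbU
            have h3 := pre_nonneg len (j :: W) k
              (fun c hc => (hlen c (List.mem_cons_of_mem _ hc)).le)
            linarith
          · rw [pre_append_right lam _ _ _ hbU1] at hb
            refine ⟨b, ?_, by linarith⟩
            rw [List.mem_append] at hbU
            rcases hbU with h | h
            · exact absurd h hbU1
            · exact h)
      refine ⟨Function.update B i U1, ?_, ?_⟩
      · rw [List.flatMap_cons, Function.update_self]
        congr 1
        rw [← hB1]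
        refine List.flatMap_congr fun k hk => ?_
        rw [Function.update_of_ne (ne_of_mem_of_not_mem hk hiW)]
      · intro k hk
        rw [List.mem_cons] at hk
        rcases hk with rfl | hk
        · rw [Function.update_self]
          exact ha
        · rw [Function.update_of_ne (ne_of_mem_of_not_mem hk hiW)]
          exact hB2 k hk

theorem pre_flatMap {len : I → ℝ} {lam : A → ℝ} (B : I → List A) : ∀ (W : List I),
    (∀ i ∈ W, ((B i).map lam).sum = len i) → (W.flatMap B).Nodup →
    ∀ i ∈ W, ∀ a ∈ B i, pre lam (W.flatMap B) a = pre len W i + pre lam (B i) a := by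
  intro W
  induction W with
  | nil => intro _ _ i hi; simp at hi
  | cons j W ih =>
    intro hB hn i hi a ha
    rw [List.flatMap_cons] at hn ⊢
    by_cases hij : j = i
    · subst hij
      rw [pre_self, zero_add, pre_append_left lam _ _ _ ha]
    · rw [List.mem_cons] at hi
      have hi' : i ∈ W := by
        rcases hi with h | h
        · exact absurd h.symm hij
        · exact h
      have haj : a ∉ B j := by
        intro h
        rw [List.nodup_append] at hn
        exact hn.2.2 a h a (List.mem_flatMap.2 ⟨i, hi', ha⟩) rfl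
      rw [pre_append_right lam _ _ _ haj, pre_ne len _ hij, hB j (by simp),
        ih (fun k hk => hB k (List.mem_cons_of_mem _ hk)) (List.nodup_append.1 hn).2.1 i hi' a ha]
      ring

/-- refinement of adapted lists -/
theorem Adapted.flatMap {len : I → ℝ} {lam : A → ℝ} {h : ℝ → ℝ} {W W' : List I}
    (hA : Adapted len h W W') (hp : W.Perm W') (hW : W.Nodup) (B : I → List A)
    (hB : ∀ i ∈ W, ((B i).map lam).sum = len i) (hlam : ∀ a, 0 < lam a)
    (hn : (W.flatMap B).Nodup) : Adapted lam h (W.flatMap B) (W'.flatMap B) := by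
  intro a ha t ht0 ht1
  obtain ⟨i, hi, hai⟩ := List.mem_flatMap.1 ha
  have hn' : (W'.flatMap B).Nodup := (List.Perm.flatMap_right B hp).nodup_iff.1 hn
  rw [pre_flatMap B W hB hn i hi a hai,
    pre_flatMap B W' (fun k hk => hB k (hp.symm.subset hk)) hn' i (hp.subset hi) a hai,
    add_assoc, add_assoc]
  have h1 := pre_add_le lam (B i) a hai (fun b _ => (hlam b).le)
  have h2 := pre_nonneg lam (B i) a (fun b _ => (hlam b).le)
  rw [hB i hi] at h1
  exact hA i hi _ (by linarith) (by linarith)

theorem exists_flatMap_of_map (lam : A → ℝ) (l : I → List ℝ) : ∀ (W : List I), W.Nodup →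
    ∀ U : List A, U.map lam = W.flatMap l →
    ∃ B : I → List A, W.flatMap B = U ∧ ∀ i ∈ W, (B i).map lam = l i := by
  intro W
  induction W with
  | nil =>
    intro _ U hU
    refine ⟨fun _ => [], ?_, by simp⟩
    rw [List.flatMap_nil, List.map_eq_nil_iff] at hU
    rw [hU]
    rfl
  | cons i W ih =>
    intro hn U hU
    rw [List.nodup_cons] at hn
    rw [List.flatMap_cons, List.map_eq_append_iff] at hU
    obtain ⟨U1, U2, rfl, h1, h2⟩ := hU
    obtain ⟨B, hB1, hB2⟩ := ih hn.2 U2 h2
    refine ⟨Function.update B i U1, ?_, ?_⟩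
    · rw [List.flatMap_cons, Function.update_self]
      congr 1
      rw [← hB1]
      refine List.flatMap_congr fun k hk => ?_
      rw [Function.update_of_ne (ne_of_mem_of_not_mem hk hn.1)]
    · intro k hk
      rw [List.mem_cons] at hk
      rcases hk with rfl | hk
      · rw [Function.update_self]
        exact h1
      · rw [Function.update_of_ne (ne_of_mem_of_not_mem hk hn.1)]
        exact hB2 k hk

/-- the coarse list `W` can be filled with all the tokens -/
theorem exists_fill {M : Set ℝ} (hM : Uniq M) (lam : A → ℝ) (hlam : ∀ a, lam a ∈ M)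
    (W0 : List A) (len : I → ℝ) (W : List I) (hW : W.Nodup)
    (hlen : ∀ i ∈ W, ∃ l : List ℝ, (∀ x ∈ l, x ∈ M) ∧ l.sum = len i)
    (hs : (W.map len).sum = (W0.map lam).sum) :
    ∃ B : I → List A, (W.flatMap B).Perm W0 ∧ ∀ i ∈ W, ((B i).map lam).sum = len i := by
  have h1 : ∀ i, ∃ l : List ℝ, i ∈ W → (∀ x ∈ l, x ∈ M) ∧ l.sum = len i := by
    intro i
    by_cases hi : i ∈ W
    · obtain ⟨l, hl⟩ := hlen i hi
      exact ⟨l, fun _ => hl⟩
    · exact ⟨[], fun h => absurd h hi⟩
  choose l hl using h1
  have hsum : ∀ V : List I, (∀ i ∈ V, i ∈ W) → (V.flatMap l).sum = (V.map len).sum := by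
    intro V
    induction V with
    | nil => intro _; rfl
    | cons j V ih =>
      intro h
      rw [List.flatMap_cons, List.sum_append, List.map_cons, List.sum_cons, (hl j (h j (by simp))).2,
        ih (fun k hk => h k (List.mem_cons_of_mem _ hk))]
  have hp : (W0.map lam).Perm (W.flatMap l) := by
    refine hM _ _ ?_ ?_ ?_
    · intro x hx
      obtain ⟨a, _, rfl⟩ := List.mem_map.1 hx
      exact hlam a
    · intro x hx
      obtain ⟨i, hi, hx⟩ := List.mem_flatMap.1 hx
      exact (hl i hi).1 x hx
    · rw [hsum W (fun i hi => hi), hs]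
  obtain ⟨U, hU1, hU2⟩ := perm_lift lam _ _ hp
  obtain ⟨B, hB1, hB2⟩ := exists_flatMap_of_map lam l W hW U hU2
  refine ⟨B, by rw [hB1]; exact hU1, ?_⟩
  intro i hi
  rw [hB2 i hi]
  exact (hl i hi).2

theorem exists_coarse_aux (T : ℝ) : ∀ W : List ℝ, W.Pairwise (· < ·) → (∀ p ∈ W, p < T) →
    ∃ len : ℝ → ℝ, (∀ i ∈ W, 0 < len i ∧ (i + len i ∈ W ∨ i + len i = T) ∧
        (∀ p ∈ W, ¬ (i < p ∧ p < i + len i)) ∧ pre len W i = i - W.headD T) ∧
      (W.map len).sum = T - W.headD T := by
  intro W
  induction W with
  | nil =>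
    intro _ _
    exact ⟨fun _ => 0, by simp, by simp⟩
  | cons a W ih =>
    intro hp hT
    rw [List.pairwise_cons] at hp
    obtain ⟨len, h1, h2⟩ := ih hp.2 (fun p hp => hT p (List.mem_cons_of_mem _ hp))
    have haW : a ∉ W := fun h => lt_irrefl _ (hp.1 a h)
    have hlt : a < W.headD T := by
      cases W with
      | nil => exact hT a (by simp)
      | cons b W => exact hp.1 b (by simp)
    have hmem : W.headD T ∈ W ∨ W.headD T = T := by
      cases W with
      | nil => right; rfl
      | cons b W => left; simp
    have hle : ∀ p ∈ W, W.headD T ≤ p := by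
      intro p hpW
      cases W with
      | nil => simp at hpW
      | cons b W =>
        rw [List.mem_cons] at hpW
        rcases hpW with rfl | h
        · exact le_refl _
        · exact ((List.pairwise_cons.1 hp.2).1 p h).le
    have hc : ∀ b ∈ W, Function.update len a (W.headD T - a) b = len b := by
      intro b hb
      rw [Function.update_of_ne (ne_of_mem_of_not_mem hb haW)]
    have hself : Function.update len a (W.headD T - a) a = W.headD T - a := Function.update_self ..
    refine ⟨Function.update len a (W.headD T - a), ?_, ?_⟩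
    · intro i hi
      rw [List.mem_cons] at hi
      rcases hi with rfl | hi
      · rw [hself, pre_self]
        refine ⟨by linarith, ?_, ?_, by simp⟩
        · rw [add_sub_cancel]
          rcases hmem with h | h
          · left
            exact List.mem_cons_of_mem _ h
          · right
            exact h
        · intro p hpW
          rw [List.mem_cons] at hpW
          rcases hpW with rfl | h
          · intro h
            exact lt_irrefl _ h.1
          · intro h'
            have := hle p h
            linarith [h'.2]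
      · obtain ⟨h3, h4, h5, h6⟩ := h1 i hi
        have hai : a ≠ i := fun h => haW (h ▸ hi)
        rw [hc i hi, pre_ne _ _ hai, hself, pre_congr W i hc, h6]
        refine ⟨h3, ?_, ?_, ?_⟩
        · rcases h4 with h | h
          · left
            exact List.mem_cons_of_mem _ h
          · right
            exact h
        · intro p hpW
          rw [List.mem_cons] at hpW
          rcases hpW with rfl | h
          · intro h'
            exact lt_asymm h'.1 (hp.1 i hi)
          · exact h5 p h
        · simp
    · rw [List.map_cons, List.sum_cons, hself, List.map_congr_left hc, h2]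
      simp

/-- the intervals between the points of a finite set; they are named by their left endpoints -/
theorem exists_coarse (T : ℝ) (P : Finset ℝ) (h0 : (0 : ℝ) ∈ P) (hP : ∀ p ∈ P, 0 ≤ p ∧ p < T) :
    ∃ (W : List ℝ) (len : ℝ → ℝ), W.Nodup ∧ (∀ i, i ∈ W ↔ i ∈ P) ∧
      (∀ i ∈ W, 0 < len i ∧ (i + len i ∈ P ∨ i + len i = T) ∧
        (∀ p ∈ P, ¬ (i < p ∧ p < i + len i)) ∧ pre len W i = i) ∧ (W.map len).sum = T := by
  have hmem : ∀ i, i ∈ P.sort (· ≤ ·) ↔ i ∈ P := fun i => Finset.mem_sort _
  have hsort : (P.sort (· ≤ ·)).Pairwise (· < ·) := Finset.sortedLT_sort P |>.pairwise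
  obtain ⟨len, h1, h2⟩ := exists_coarse_aux T (P.sort (· ≤ ·)) hsort
    (fun p hp => (hP p ((hmem p).1 hp)).2)
  have hhead : (P.sort (· ≤ ·)).headD T = 0 := by
    have h3 : (0 : ℝ) ∈ P.sort (· ≤ ·) := (hmem 0).2 h0
    cases hW : P.sort (· ≤ ·) with
    | nil =>
      rw [hW] at h3
      simp at h3
    | cons b W =>
      rw [hW] at h3 hsort
      have hb : 0 ≤ b := (hP b ((hmem b).1 (by rw [hW]; simp))).1
      rw [List.mem_cons] at h3
      rcases h3 with h | h
      · rw [← h]
        rfl
      · exact absurd ((List.pairwise_cons.1 hsort).1 0 h) (not_lt.2 hb)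
  rw [hhead] at h1 h2
  refine ⟨P.sort (· ≤ ·), len, P.sort_nodup _, hmem, ?_, by rw [h2, sub_zero]⟩
  intro i hi
  obtain ⟨h3, h4, h5, h6⟩ := h1 i hi
  refine ⟨h3, ?_, ?_, by rw [h6, sub_zero]⟩
  · rcases h4 with h | h
    · left
      exact (hmem _).1 h
    · right
      exact h
  · intro p hp
    exact h5 p ((hmem p).2 hp)

/-- a tiling gives a list -/
theorem exists_tiling (len c : I → ℝ) : ∀ (n : ℕ) (W : List I) (x y : ℝ), W.length = n → W.Nodup →
    x ≤ y → (∀ i ∈ W, 0 < len i ∧ x ≤ c i ∧ c i + len i ≤ y) →
    (∀ z, x ≤ z → z < y → ∃ i ∈ W, c i ≤ z ∧ z < c i + len i) →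
    (∀ i ∈ W, ∀ j ∈ W, ∀ z, c i ≤ z → z < c i + len i → c j ≤ z → z < c j + len j → i = j) →
    ∃ W' : List I, W.Perm W' ∧ ∀ i ∈ W, pre len W' i = c i - x := by
  intro n
  induction n with
  | zero =>
    intro W x y hn _ _ _ _ _
    rw [List.length_eq_zero_iff] at hn
    subst hn
    exact ⟨[], List.Perm.refl _, by simp⟩
  | succ n ih =>
    intro W x y hn hW hxy hb hcov hdis
    have hxy' : x < y := by
      cases W with
      | nil => simp at hn
      | cons i W =>
        obtain ⟨h1, h2, h3⟩ := hb i (by simp)
        linarith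
    obtain ⟨i, hi, hi1, hi2⟩ := hcov x (le_refl _) hxy'
    have hci : c i = x := le_antisymm hi1 (hb i hi).2.1
    have hlen : (W.erase i).length = n := by
      rw [List.length_erase_of_mem hi, hn]
      rfl
    have hmem : ∀ j, j ∈ W.erase i ↔ j ≠ i ∧ j ∈ W := fun j => hW.mem_erase_iff
    obtain ⟨W', hp, hW'⟩ := ih (W.erase i) (x + len i) y hlen (hW.erase i)
      (by have := (hb i hi).2.2; rw [hci] at this; exact this)
      (by
        intro j hj
        rw [hmem] at hj
        obtain ⟨h1, h2, h3⟩ := hb j hj.2
        refine ⟨h1, ?_, h3⟩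
        by_contra hlt
        rw [not_le] at hlt
        exact hj.1 (hdis j hj.2 i hi (c j) (le_refl _) (by linarith) (by linarith) (by linarith)))
      (by
        intro z hz1 hz2
        obtain ⟨j, hj, h1, h2⟩ := hcov z (by have := (hb i hi).1; linarith) hz2
        refine ⟨j, ?_, h1, h2⟩
        rw [hmem]
        refine ⟨?_, hj⟩
        rintro rfl
        rw [hci] at h2
        linarith)
      (by
        intro j hj k hk
        rw [hmem] at hj hk
        exact hdis j hj.2 k hk.2)
    refine ⟨i :: W', (List.perm_cons_erase hi).trans (hp.cons i), ?_⟩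
    intro j hj
    by_cases hij : i = j
    · subst hij
      rw [pre_self, hci, sub_self]
    · rw [pre_ne len _ hij, hW' j ((hmem j).2 ⟨Ne.symm hij, hj⟩)]
      ring

/-- the two lists of an interval exchange transformation -/
theorem exists_lists (T : ℝ) (hT : 0 < T) (P : Finset ℝ) (h : Equiv.Perm ℝ) (hh : Pw T P h) :
    ∃ (Q : Finset ℝ) (W W' : List ℝ) (len : ℝ → ℝ), (0 : ℝ) ∈ Q ∧ (∀ p ∈ Q, 0 ≤ p ∧ p < T) ∧
      W.Nodup ∧ W.Perm W' ∧
      (∀ i, i ∈ W ↔ i ∈ Q) ∧ (∀ i ∈ W, 0 < len i ∧ (i + len i ∈ Q ∨ i + len i = T) ∧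
        pre len W i = i) ∧ (W.map len).sum = T ∧ Adapted len h W W' := by
  obtain ⟨hout, hpw⟩ := hh
  have hQ : ∀ p ∈ insert (0 : ℝ) (P.filter fun p => 0 < p ∧ p < T), 0 ≤ p ∧ p < T := by
    intro p hp
    rw [Finset.mem_insert, Finset.mem_filter] at hp
    rcases hp with rfl | hp
    · exact ⟨le_refl _, hT⟩
    · exact ⟨hp.2.1.le, hp.2.2⟩
  obtain ⟨W, len, hW, hmem, hW', hsum⟩ := exists_coarse T
    (insert (0 : ℝ) (P.filter fun p => 0 < p ∧ p < T)) (Finset.mem_insert_self _ _) hQ
  have hle : ∀ i ∈ W, i + len i ≤ T := by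
    intro i hi
    rcases (hW' i hi).2.1 with h1 | h1
    · exact (hQ _ h1).2.le
    · exact h1.le
  have hpt : ∀ i ∈ W, ∀ t, 0 ≤ t → t < len i → h (i + t) = h i + t := by
    intro i hi t ht0 ht1
    have h1 := hpw i (i + t) (by linarith) (by
      intro p hp h2
      have h3 := (hQ i ((hmem i).1 hi)).1
      have h4 := hle i hi
      refine (hW' i hi).2.2.1 p ?_ ⟨h2.1, by linarith [h2.2]⟩
      rw [Finset.mem_insert, Finset.mem_filter]
      right
      exact ⟨hp, by linarith [h2.1], by linarith [h2.2]⟩)
    linarith
  have hin : ∀ x, 0 ≤ x ∧ x < T → 0 ≤ h x ∧ h x < T := by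
    intro x hx
    by_contra hc
    exact hc (by rw [h.injective (hout _ hc)]; exact hx)
  have hin' : ∀ x, 0 ≤ h x ∧ h x < T → 0 ≤ x ∧ x < T := by
    intro x hx
    by_contra hc
    rw [hout x hc] at hx
    exact hc hx
  have hbi : ∀ i ∈ W, 0 ≤ i ∧ i < T := fun i hi => hQ i ((hmem i).1 hi)
  obtain ⟨V, hV, hV'⟩ := exists_tiling len (fun i => h i) W.length W 0 T rfl hW hT.le
    (by
      intro i hi
      refine ⟨(hW' i hi).1, (hin i (hbi i hi)).1, ?_⟩
      by_contra hc
      rw [not_le] at hc
      have h1 := (hin i (hbi i hi)).2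
      have h2 := hpt i hi (T - h i) (by linarith) (by linarith)
      have h3 := hle i hi
      have h4 := (hin (i + (T - h i)) ⟨by linarith [(hbi i hi).1], by linarith⟩).2
      rw [h2] at h4
      linarith)
    (by
      intro z hz0 hz1
      obtain ⟨x, rfl⟩ := h.surjective z
      have hx := hin' x ⟨hz0, hz1⟩
      obtain ⟨i, hi, h1, h2⟩ := exists_between_pre len W hW x hx.1 (by rw [hsum]; exact hx.2)
      rw [(hW' i hi).2.2.2] at h1 h2
      have h3 := hpt i hi (x - i) (by linarith) (by linarith)
      rw [add_sub_cancel] at h3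
      exact ⟨i, hi, by linarith, by linarith⟩)
    (by
      intro i hi j hj z hi1 hi2 hj1 hj2
      have h1 := hpt i hi (z - h i) (by linarith) (by linarith)
      have h2 := hpt j hj (z - h j) (by linarith) (by linarith)
      have h3 : i + (z - h i) = j + (z - h j) := h.injective (by rw [h1, h2]; ring)
      by_contra hne
      rcases lt_or_gt_of_ne hne with hlt | hlt
      · exact (hW' i hi).2.2.1 j ((hmem j).1 hj) ⟨hlt, by linarith⟩
      · exact (hW' j hj).2.2.1 i ((hmem i).1 hi) ⟨hlt, by linarith⟩)
  refine ⟨insert (0 : ℝ) (P.filter fun p => 0 < p ∧ p < T), W, V, len,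
    Finset.mem_insert_self _ _, hQ, hW, hV, hmem, ?_, hsum, ?_⟩
  · intro i hi
    obtain ⟨h1, h2, _, h4⟩ := hW' i hi
    exact ⟨h1, h2, h4⟩
  · intro i hi t ht0 ht1
    rw [(hW' i hi).2.2.2, hV' i hi, hpt i hi t ht0 ht1]
    ring

/-- independence gives unique sums -/
theorem uniq_of_indep (M : Finset ℝ) (hM : LinearIndependent ℚ (fun y : M => (y : ℝ))) :
    Uniq (M : Set ℝ) := by
  intro l l' hl hl' hs
  rw [List.perm_iff_count]
  have h1 : ∀ l : List ℝ, (∀ x ∈ l, x ∈ M) → l.sum = ∑ y : M, (l.count (y : ℝ) : ℚ) • (y : ℝ) := by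
    intro l hl
    rw [Finset.sum_list_count_of_subset l M (by
      intro x hx
      exact hl x (List.mem_toFinset.1 hx)), ← Finset.sum_coe_sort]
    refine Finset.sum_congr rfl fun y _ => ?_
    rw [Nat.cast_smul_eq_nsmul]
  have h2 : ∑ y : M, ((l.count (y : ℝ) : ℚ) - (l'.count (y : ℝ) : ℚ)) • (y : ℝ) = 0 := by
    have h3 : ∀ y : M, ((l.count (y : ℝ) : ℚ) - (l'.count (y : ℝ) : ℚ)) • (y : ℝ) =
        (l.count (y : ℝ) : ℚ) • (y : ℝ) - (l'.count (y : ℝ) : ℚ) • (y : ℝ) := fun y => sub_smul _ _ _
    rw [Finset.sum_congr rfl fun y _ => h3 y, Finset.sum_sub_distrib,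
      ← h1 l (fun x hx => Finset.mem_coe.1 (hl x hx)),
      ← h1 l' (fun x hx => Finset.mem_coe.1 (hl' x hx)), hs, sub_self]
  have h4 := Fintype.linearIndependent_iff.1 hM _ h2
  intro x
  by_cases hx : x ∈ M
  · have h5 := h4 ⟨x, hx⟩
    have h6 : (l.count x : ℚ) = (l'.count x : ℚ) := by
      simpa [sub_eq_zero] using h5
    exact_mod_cast h6
  · rw [List.count_eq_zero_of_not_mem (fun h => hx (Finset.mem_coe.1 (hl x h))),
      List.count_eq_zero_of_not_mem (fun h => hx (Finset.mem_coe.1 (hl' x h)))]

/-- a list is determined by the left endpoints -/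
theorem eq_of_pre {lam : A → ℝ} (hlam : ∀ a, 0 < lam a) : ∀ (U U' : List A), U.Perm U' → U.Nodup →
    (∀ a ∈ U, pre lam U a = pre lam U' a) → U = U' := by
  intro U
  induction U with
  | nil =>
    intro U' hp _ _
    exact (List.nil_perm.1 hp).symm
  | cons a U ih =>
    intro U' hp hn hpre
    cases U' with
    | nil => simpa using hp.length_eq
    | cons b U' =>
      have hab : a = b := by
        by_contra hab
        have h1 := hpre b (hp.symm.subset (by simp))
        rw [pre_self, pre_ne lam _ hab] at h1
        have h2 := hlam a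
        have h3 := pre_nonneg lam U b (fun c _ => (hlam c).le)
        linarith
      subst hab
      rw [List.nodup_cons] at hn
      rw [ih U' (List.Perm.cons_inv hp) hn.2 (by
        intro c hc
        have hac : a ≠ c := fun h => hn.1 (h ▸ hc)
        have h1 := hpre c (List.mem_cons_of_mem _ hc)
        rw [pre_ne lam _ hac, pre_ne lam _ hac] at h1
        linarith)]

end Pool.Agent.H54.IX
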