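import Pool.Agent.H65.IX.Lst

/-!
# The action of `GT` on the points

`ev` maps the recut element of `W`, `W'` to the permutation which maps the point at the position `x` in `W'` to the point
at the position `x` in `W`.
-/

set_option autoImplicit false

open Classical

namespace Pool.Agent.H54.IX

variable {A : Type} (lam : A → ℝ)

theorem pos_cons_self (a : A) (W : List A) (p : Pt lam) (h : a = p.1.1) :
    pos lam (a :: W) p = p.1.2 := by
  unfold pos
  rw [← h, pre_self, zero_add]

theorem pos_cons_ne (a : A) (W : List A) (p : Pt lam) (h : a ≠ p.1.1) :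
    pos lam (a :: W) p = lam a + pos lam W p := by
  unfold pos
  rw [pre_ne lam W h, add_assoc]

theorem pos_lt (hlam : ∀ a, 0 < lam a) (W : List A) (hW : W.Nodup) (p : Pt lam) (hp : p.1.1 ∈ W) :
    0 ≤ pos lam W p ∧ pos lam W p < (W.map lam).sum := by
  have _ := hW
  have h1 := pre_nonneg lam W p.1.1 (fun b _ => (hlam b).le)
  have h2 := pre_add_le lam W p.1.1 hp (fun b _ => (hlam b).le)
  have h3 := p.2
  unfold pos
  constructor
  · linarith [h3.1]
  · linarith [h3.2]

theorem pos_inj (hlam : ∀ a, 0 < lam a) (W : List A) (hW : W.Nodup) (p q : Pt lam)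
    (hp : p.1.1 ∈ W) (hq : q.1.1 ∈ W) (h : pos lam W p = pos lam W q) : p = q := by
  induction W with
  | nil => simp at hp
  | cons a W ih =>
    rw [List.nodup_cons] at hW
    have h0 : ∀ r : Pt lam, 0 ≤ pos lam W r := by
      intro r
      have h1 := pre_nonneg lam W r.1.1 (fun b _ => (hlam b).le)
      have h2 := r.2.1
      unfold pos
      linarith
    by_cases h1 : a = p.1.1
    · by_cases h2 : a = q.1.1
      · rw [pos_cons_self lam a W p h1, pos_cons_self lam a W q h2] at h
        exact Subtype.ext (Prod.ext (h1.symm.trans h2) h)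
      · exfalso
        rw [pos_cons_self lam a W p h1, pos_cons_ne lam a W q h2] at h
        have h3 := p.2.2
        have h4 := h0 q
        rw [← h1] at h3
        linarith
    · by_cases h2 : a = q.1.1
      · exfalso
        rw [pos_cons_ne lam a W p h1, pos_cons_self lam a W q h2] at h
        have h3 := q.2.2
        have h4 := h0 p
        rw [← h2] at h3
        linarith
      · rw [pos_cons_ne lam a W p h1, pos_cons_ne lam a W q h2] at h
        rw [List.mem_cons] at hp hq
        refine ih hW.2 ?_ ?_ (by linarith)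
        · rcases hp with h3 | h3
          · exact absurd h3.symm h1
          · exact h3
        · rcases hq with h3 | h3
          · exact absurd h3.symm h2
          · exact h3

theorem pos_surj (W : List A) (hW : W.Nodup) (x : ℝ) (h0 : 0 ≤ x) (h1 : x < (W.map lam).sum) :
    ∃ p : Pt lam, p.1.1 ∈ W ∧ pos lam W p = x := by
  obtain ⟨i, hi, h2, h3⟩ := exists_between_pre lam W hW x h0 h1
  refine ⟨⟨(i, x - pre lam W i), by linarith, by simp only; linarith⟩, hi, ?_⟩
  unfold pos
  simp only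
  ring

/-- `e` maps the point at the position `x` in `W'` to the point at the position `x` in `W` -/
def Spec (W W' : List A) (e : Equiv.Perm (Pt lam)) : Prop :=
  (∀ p, p.1.1 ∉ W → e p = p) ∧
    ∀ p, p.1.1 ∈ W → (e p).1.1 ∈ W ∧ pos lam W (e p) = pos lam W' p

variable {lam}

theorem Spec.unique (hlam : ∀ a, 0 < lam a) {W W' : List A} (hW : W.Nodup)
    {e e' : Equiv.Perm (Pt lam)} (h : Spec lam W W' e) (h' : Spec lam W W' e') : e = e' := by
  refine Equiv.ext fun p => ?_
  by_cases hp : p.1.1 ∈ W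
  · obtain ⟨h1, h2⟩ := h.2 p hp
    obtain ⟨h3, h4⟩ := h'.2 p hp
    exact pos_inj lam hlam W hW _ _ h1 h3 (h2.trans h4.symm)
  · rw [h.1 p hp, h'.1 p hp]

theorem Spec.refl (W : List A) : Spec lam W W 1 := ⟨fun _ _ => rfl, fun _ hp => ⟨hp, rfl⟩⟩

theorem Spec.mul {W W' W'' : List A} (hp : W.Perm W') {e e' : Equiv.Perm (Pt lam)}
    (h : Spec lam W W' e) (h' : Spec lam W' W'' e') : Spec lam W W'' (e * e') := by
  constructor
  · intro p hpW
    rw [Equiv.Perm.mul_apply, h'.1 p (fun h1 => hpW (hp.symm.subset h1)), h.1 p hpW]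
  · intro p hpW
    obtain ⟨h1, h2⟩ := h'.2 p (hp.subset hpW)
    obtain ⟨h3, h4⟩ := h.2 (e' p) (hp.symm.subset h1)
    exact ⟨h3, h4.trans h2⟩

theorem Spec.inv {W W' : List A} (hp : W.Perm W') {e : Equiv.Perm (Pt lam)}
    (h : Spec lam W W' e) : Spec lam W' W e⁻¹ := by
  constructor
  · intro p hpW
    rw [Equiv.Perm.inv_eq_iff_eq]
    exact (h.1 p (fun h1 => hpW (hp.subset h1))).symm
  · intro p hpW
    have h1 : (e⁻¹ p).1.1 ∈ W := by
      by_contra hc
      have h2 := h.1 _ hc
      rw [show e (e⁻¹ p) = p from e.apply_symm_apply p] at h2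
      rw [← h2] at hc
      exact hc (hp.symm.subset hpW)
    refine ⟨hp.subset h1, ?_⟩
    have h2 := (h.2 _ h1).2
    rw [show e (e⁻¹ p) = p from e.apply_symm_apply p] at h2
    exact h2.symm

theorem pos_append_left (U V : List A) (p : Pt lam) (hp : p.1.1 ∈ U) :
    pos lam (U ++ V) p = pos lam U p := by
  unfold pos
  rw [pre_append_left lam U V _ hp]

theorem pos_append_right (U V : List A) (p : Pt lam) (hp : p.1.1 ∉ U) :
    pos lam (U ++ V) p = (U.map lam).sum + pos lam V p := by
  unfold pos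
  rw [pre_append_right lam U V _ hp, add_assoc]

theorem Spec.ctx {W W' : List A} (hp : W.Perm W') {e : Equiv.Perm (Pt lam)}
    (h : Spec lam W W' e) (U V : List A) (hn : (U ++ W ++ V).Nodup) :
    Spec lam (U ++ W ++ V) (U ++ W' ++ V) e := by
  rw [List.append_assoc] at hn
  have hUW : ∀ a ∈ W, a ∉ U := by
    intro a ha hU
    exact (List.nodup_append.1 hn).2.2 a hU a (List.mem_append_left _ ha) rfl
  constructor
  · intro p hpW
    refine h.1 p (fun h1 => hpW ?_)
    exact List.mem_append_left _ (List.mem_append_right _ h1)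
  · intro p hpW
    by_cases h1 : p.1.1 ∈ W
    · obtain ⟨h2, h3⟩ := h.2 p h1
      refine ⟨List.mem_append_left _ (List.mem_append_right _ h2), ?_⟩
      rw [List.append_assoc, List.append_assoc, pos_append_right _ _ _ (hUW _ h2),
        pos_append_right _ _ _ (hUW _ h1), pos_append_left _ _ _ h2,
        pos_append_left _ _ _ (hp.subset h1), h3]
    · rw [h.1 p h1]
      refine ⟨hpW, ?_⟩
      rw [List.append_assoc, List.append_assoc]
      by_cases h2 : p.1.1 ∈ U
      · rw [pos_append_left _ _ _ h2, pos_append_left _ _ _ h2]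
      · rw [pos_append_right _ _ _ h2, pos_append_right _ _ _ h2, pos_append_right _ _ _ h1,
          pos_append_right _ _ _ (fun h3 => h1 (hp.symm.subset h3)), (hp.map lam).sum_eq]

theorem exists_spec (hlam : ∀ a, 0 < lam a) {W W' : List A} (hp : W.Perm W') (hW : W.Nodup) :
    ∃ e, Spec lam W W' e := by
  have key : ∀ W W' : List A, W.Perm W' → W.Nodup → ∀ p : Pt lam, ∃ q : Pt lam,
      (p.1.1 ∉ W → q = p) ∧ (p.1.1 ∈ W → q.1.1 ∈ W ∧ pos lam W q = pos lam W' p) := by
    intro W W' hp hW p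
    by_cases h : p.1.1 ∈ W
    · obtain ⟨h1, h2⟩ := pos_lt lam hlam W' (hp.nodup_iff.1 hW) p (hp.subset h)
      obtain ⟨q, hq, hq'⟩ := pos_surj lam W hW (pos lam W' p) h1 (by
        rw [(hp.map lam).sum_eq]
        exact h2)
      exact ⟨q, fun h3 => absurd h h3, fun _ => ⟨hq, hq'⟩⟩
    · exact ⟨p, fun _ => rfl, fun h3 => absurd h3 h⟩
  have inv : ∀ (W W' : List A) (f g : Pt lam → Pt lam), W.Perm W' → W.Nodup →
      (∀ p : Pt lam, (p.1.1 ∉ W → f p = p) ∧
        (p.1.1 ∈ W → (f p).1.1 ∈ W ∧ pos lam W (f p) = pos lam W' p)) →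
      (∀ p : Pt lam, (p.1.1 ∉ W' → g p = p) ∧
        (p.1.1 ∈ W' → (g p).1.1 ∈ W' ∧ pos lam W' (g p) = pos lam W p)) →
      ∀ p, g (f p) = p := by
    intro W W' f g hp hW hf hg p
    by_cases h : p.1.1 ∈ W
    · obtain ⟨h1, h2⟩ := (hf p).2 h
      obtain ⟨h3, h4⟩ := (hg (f p)).2 (hp.subset h1)
      exact pos_inj lam hlam W' (hp.nodup_iff.1 hW) _ _ h3 (hp.subset h) (h4.trans h2)
    · rw [(hf p).1 h, (hg p).1 (fun h1 => h (hp.symm.subset h1))]
  choose f hf using key W W' hp hW
  choose g hg using key W' W hp.symm (hp.nodup_iff.1 hW)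
  exact ⟨⟨f, g, inv W W' f g hp hW hf hg, inv W' W g f hp.symm (hp.nodup_iff.1 hW) hg hf⟩,
    fun p => (hf p).1, fun p => (hf p).2⟩

variable (lam)

/-- the exchange of two tokens -/
noncomputable def rp (x y : A) : Equiv.Perm (Pt lam) :=
  if h : ∃ e, Spec lam [x, y] [y, x] e then h.choose else 1

variable {lam}

theorem rp_spec (hlam : ∀ a, 0 < lam a) {x y : A} (hxy : x ≠ y) :
    Spec lam [x, y] [y, x] (rp lam x y) := by
  have h : ∃ e, Spec lam [x, y] [y, x] e :=
    exists_spec hlam (List.Perm.swap y x []) (by simpa using hxy)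
  unfold rp
  rw [dif_pos h]
  exact h.choose_spec

theorem rp_ctx (hlam : ∀ a, 0 < lam a) (U V : List A) (x y : A) (h : (U ++ x :: y :: V).Nodup) :
    Spec lam (U ++ x :: y :: V) (U ++ y :: x :: V) (rp lam x y) := by
  have h1 : U ++ x :: y :: V = U ++ [x, y] ++ V := by simp
  have h2 : U ++ y :: x :: V = U ++ [y, x] ++ V := by simp
  have hxy : x ≠ y := by
    rintro rfl
    have := (List.nodup_append.1 h).2.1
    simp at this
  rw [h1, h2]
  refine (rp_spec hlam hxy).ctx (List.Perm.swap y x []) U V ?_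
  rw [← h1]
  exact h

theorem rp_inv (hlam : ∀ a, 0 < lam a) {x y : A} (hxy : x ≠ y) : rp lam x y * rp lam y x = 1 := by
  refine Spec.unique hlam (W := [x, y]) (W' := [x, y]) (by simpa using hxy) ?_ (Spec.refl _)
  exact (rp_spec hlam hxy).mul (List.Perm.swap y x []) (rp_spec hlam hxy.symm)

theorem rp_comm (hlam : ∀ a, 0 < lam a) {x y z w : A} (h1 : x ≠ z) (h2 : x ≠ w) (h3 : y ≠ z)
    (h4 : y ≠ w) (h5 : x ≠ y) (h6 : z ≠ w) :
    rp lam x y * rp lam z w = rp lam z w * rp lam x y := by
  have hn : [x, y, z, w].Nodup := by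
    simp [h1, h2, h3, h4, h5, h6]
  have a1 := rp_ctx hlam [] [z, w] x y (by simpa using hn)
  have a2 := rp_ctx hlam [y, x] [] z w (by
    simp [h1, h2, h3, h4, h5.symm, h6])
  have a3 := rp_ctx hlam [x, y] [] z w (by simpa using hn)
  have a4 := rp_ctx hlam [] [w, z] x y (by
    simp [h1, h2, h3, h4, h5, h6.symm])
  refine Spec.unique hlam hn (W' := [y, x, w, z]) ?_ ?_
  · exact a1.mul (List.Perm.swap y x [z, w]) a2
  · exact a3.mul ((List.Perm.swap w z []).cons y |>.cons x) a4

theorem rp_yb (hlam : ∀ a, 0 < lam a) {x y z : A} (h1 : x ≠ y) (h2 : x ≠ z) (h3 : y ≠ z) :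
    rp lam x y * rp lam x z * rp lam y z = rp lam y z * rp lam x z * rp lam x y := by
  have hn : [x, y, z].Nodup := by simp [h1, h2, h3]
  have a1 := rp_ctx hlam [] [z] x y (by simpa using hn)
  have a2 := rp_ctx hlam [y] [] x z (by simp [h1.symm, h2, h3])
  have a3 := rp_ctx hlam [] [x] y z (by simp [h1.symm, h2.symm, h3])
  have b1 := rp_ctx hlam [x] [] y z (by simpa using hn)
  have b2 := rp_ctx hlam [] [y] x z (by simp [h1, h2, h3.symm])
  have b3 := rp_ctx hlam [z] [] x y (by simp [h1, h2.symm, h3.symm])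
  refine Spec.unique hlam hn (W' := [z, y, x]) ?_ ?_
  · refine Spec.mul ?_ (Spec.mul ?_ a1 a2) a3
    · exact (List.Perm.swap y x [z]).trans ((List.Perm.swap z x []).cons y)
    · exact List.Perm.swap y x [z]
  · refine Spec.mul ?_ (Spec.mul ?_ b1 b2) b3
    · exact ((List.Perm.swap z y []).cons x).trans (List.Perm.swap z x [y])
    · exact (List.Perm.swap z y []).cons x

theorem rp_isYB (hlam : ∀ a, 0 < lam a) :
    IsYB (grt lam) (fun x y => if (grt lam).Adj x y then rp lam x y else 1) where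
  off x y h := if_neg h
  inv x y h := by
    rw [if_pos h, if_pos h.symm]
    exact rp_inv hlam h.ne
  comm x y z w h1 h2 h3 h4 h5 h6 := by
    rw [if_pos h1, if_pos h2]
    exact rp_comm hlam h3 h4 h5 h6 h1.ne h2.ne
  yb x y z h1 h2 h3 := by
    rw [if_pos h1, if_pos h2, if_pos h3]
    exact rp_yb hlam h1.ne h2.ne h3.ne

/-- a permutation of the tokens acts on the points -/
def mvp (σ : sg lam) : Equiv.Perm (Pt lam) where
  toFun p := ⟨(σ.1 p.1.1, p.1.2), p.2.1, by
    change p.1.2 < lam (σ.1 p.1.1)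
    rw [σ.2 p.1.1]
    exact p.2.2⟩
  invFun p := ⟨((σ⁻¹).1 p.1.1, p.1.2), p.2.1, by
    change p.1.2 < lam ((σ⁻¹).1 p.1.1)
    rw [(σ⁻¹).2 p.1.1]
    exact p.2.2⟩
  left_inv p := by
    refine Subtype.ext (Prod.ext ?_ rfl)
    exact σ.1.symm_apply_apply _
  right_inv p := by
    refine Subtype.ext (Prod.ext ?_ rfl)
    exact σ.1.apply_symm_apply _

variable (lam)

/-- the action of the permutations of the tokens -/
def mvh : sg lam →* Equiv.Perm (Pt lam) where
  toFun := mvp
  map_one' := rfl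
  map_mul' _ _ := rfl

variable {lam}

theorem pre_map (σ : sg lam) (a : A) : ∀ W : List A, pre lam (W.map σ.1) (σ.1 a) = pre lam W a := by
  intro W
  induction W with
  | nil => rfl
  | cons b W ih =>
    rw [List.map_cons]
    by_cases h : b = a
    · subst h
      rw [pre_self, pre_self]
    · rw [pre_ne lam _ h, pre_ne lam _ (fun h1 => h (σ.1.injective h1)), ih, σ.2 b]

theorem pos_map (σ : sg lam) (p : Pt lam) (W : List A) :
    pos lam (W.map σ.1) (mvh lam σ p) = pos lam W p := by
  unfold pos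
  have h := pre_map σ p.1.1 W
  exact congrArg (fun t => t + p.1.2) h

theorem mvh_mem (σ : sg lam) (p : Pt lam) (W : List A) :
    (mvh lam σ p).1.1 ∈ W.map σ.1 ↔ p.1.1 ∈ W := by
  change σ.1 p.1.1 ∈ W.map σ.1 ↔ p.1.1 ∈ W
  rw [List.mem_map]
  constructor
  · rintro ⟨b, hb, h⟩
    rw [← σ.1.injective h]
    exact hb
  · intro h
    exact ⟨_, h, rfl⟩

theorem Spec.conj {W W' : List A} {e : Equiv.Perm (Pt lam)} (h : Spec lam W W' e) (σ : sg lam) :
    Spec lam (W.map σ.1) (W'.map σ.1) (mvh lam σ * e * (mvh lam σ)⁻¹) := by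
  constructor
  · intro p hp
    obtain ⟨q, rfl⟩ := (mvh lam σ).surjective p
    rw [mvh_mem] at hp
    have hq : (mvh lam σ)⁻¹ ((mvh lam σ) q) = q := (mvh lam σ).symm_apply_apply q
    rw [Equiv.Perm.mul_apply, hq, Equiv.Perm.mul_apply, h.1 q hp]
  · intro p hp
    obtain ⟨q, rfl⟩ := (mvh lam σ).surjective p
    rw [mvh_mem] at hp
    have hq : (mvh lam σ)⁻¹ ((mvh lam σ) q) = q := (mvh lam σ).symm_apply_apply q
    rw [Equiv.Perm.mul_apply, hq, Equiv.Perm.mul_apply, mvh_mem, pos_map,
      pos_map]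
    exact h.2 q hp

theorem ev_compat (hlam : ∀ a, 0 < lam a) (σ : sg lam) :
    (lft (rp_isYB hlam)).comp ((sga lam) σ).toMonoidHom =
      (MulAut.conj (mvh lam σ)).toMonoidHom.comp (lft (rp_isYB hlam)) := by
  refine tg_ext fun x y h => ?_
  have h1 : (grt lam).Adj (σ.1 x) (σ.1 y) := by
    change lam (σ.1 x) ≠ lam (σ.1 y)
    rw [σ.2 x, σ.2 y]
    exact h
  have h2 : sgm lam σ (rr (grt lam) x y) = rr (grt lam) (σ.1 x) (σ.1 y) := sgm_rr lam σ x y
  change lft (rp_isYB hlam) (sgm lam σ (rr (grt lam) x y)) =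
    mvh lam σ * lft (rp_isYB hlam) (rr (grt lam) x y) * (mvh lam σ)⁻¹
  rw [h2, lft_rr, lft_rr, if_pos h1, if_pos h]
  refine Spec.unique hlam (W := [σ.1 x, σ.1 y]) (W' := [σ.1 y, σ.1 x]) ?_ (rp_spec hlam h1.ne) ?_
  · simpa using h1.ne
  · exact (rp_spec hlam h.ne).conj σ

theorem mvh_swap {x y : A} (hxy : x ≠ y) (h : lam x = lam y) :
    Spec lam [x, y] [y, x] (mvh lam ⟨Equiv.swap x y, swap_mem_sg h⟩) := by
  constructor
  · intro p hp
    rw [List.mem_cons, List.mem_singleton, not_or] at hp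
    refine Subtype.ext (Prod.ext ?_ rfl)
    exact Equiv.swap_apply_of_ne_of_ne hp.1 hp.2
  · rintro ⟨⟨a, t⟩, ht⟩ hp
    rw [List.mem_cons, List.mem_singleton] at hp
    change Equiv.swap x y a ∈ [x, y] ∧ pre lam [x, y] (Equiv.swap x y a) + t = pre lam [y, x] a + t
    change a = x ∨ a = y at hp
    rcases hp with rfl | rfl
    · rw [Equiv.swap_apply_left]
      refine ⟨by simp, ?_⟩
      rw [pre_ne lam _ hxy, pre_self, pre_ne lam _ hxy.symm, pre_self, h]
    · rw [Equiv.swap_apply_right]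
      refine ⟨by simp, ?_⟩
      rw [pre_self, pre_self]

theorem exists_ev [Fintype A] (hlam : ∀ a, 0 < lam a) :
    ∃ ev : GT lam →* Equiv.Perm (Pt lam), ∀ W W' : List A, W.Perm W' → W.Nodup →
      ∀ p : Pt lam, p.1.1 ∈ W → pos lam W (ev (RR (rh lam) W W') p) = pos lam W' p := by
  let ev : GT lam →* Equiv.Perm (Pt lam) :=
    SemidirectProduct.lift (lft (rp_isYB hlam)) (mvh lam) (ev_compat hlam)
  have hev : ∀ x y : A, x ≠ y → Spec lam [x, y] [y, x] (ev (rh lam x y)) := by
    intro x y hxy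
    by_cases h : lam x = lam y
    · rw [rh_eq h]
      have h1 : ev (pm lam (Equiv.swap x y) (swap_mem_sg h)) =
          mvh lam ⟨Equiv.swap x y, swap_mem_sg h⟩ := SemidirectProduct.lift_inr ..
      rw [h1]
      exact mvh_swap hxy h
    · rw [rh_ne h]
      have h1 : ev (SemidirectProduct.inl (rr (grt lam) x y)) =
          lft (rp_isYB hlam) (rr (grt lam) x y) := SemidirectProduct.lift_inl ..
      rw [h1, lft_rr, if_pos (show (grt lam).Adj x y from h)]
      exact rp_spec hlam hxy
  let F : List A → Equiv.Perm (Pt lam) := fun W =>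
    if h : ∃ e, Spec lam W W.toFinset.toList e then h.choose else 1
  have hperm : ∀ W : List A, W.Nodup → W.Perm W.toFinset.toList := by
    intro W hW
    rw [List.perm_ext_iff_of_nodup hW (Finset.nodup_toList _)]
    intro a
    rw [Finset.mem_toList, List.mem_toFinset]
  have hF : ∀ W : List A, W.Nodup → Spec lam W W.toFinset.toList (F W) := by
    intro W hW
    have h : ∃ e, Spec lam W W.toFinset.toList e := exists_spec hlam (hperm W hW) hW
    have h1 : F W = h.choose := dif_pos h
    rw [h1]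
    exact h.choose_spec
  have hset : ∀ W W' : List A, W.Perm W' → W.toFinset = W'.toFinset :=
    fun W W' h => List.toFinset_eq_of_perm _ _ h
  refine ⟨ev, ?_⟩
  intro W W' hp hW p hpW
  have hW' : W'.Nodup := hp.nodup_iff.1 hW
  have h1 : ev (RR (rh lam) W W') = F W * (F W')⁻¹ := by
    refine RR_gen' (rh_yb lam) ev F ?_ hp hW
    intro U V a b hn
    have hs : (U ++ a :: b :: V).Perm (U ++ b :: a :: V) :=
      List.Perm.append_left U (List.Perm.swap b a V)
    have hab : a ≠ b := by
      rintro rfl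
      have := (List.nodup_append.1 hn).2.1
      simp at this
    have e1 : U ++ a :: b :: V = U ++ [a, b] ++ V := by simp
    have e2 : U ++ b :: a :: V = U ++ [b, a] ++ V := by simp
    have h2 : Spec lam (U ++ a :: b :: V) (U ++ b :: a :: V) (ev (rh lam a b)) := by
      rw [e1, e2]
      exact (hev a b hab).ctx (List.Perm.swap b a []) U V (by rw [← e1]; exact hn)
    have h3 := hF _ (hs.nodup_iff.1 hn)
    rw [← hset _ _ hs] at h3
    exact Spec.unique hlam hn (hF _ hn) (h2.mul hs h3)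
  have h2 : Spec lam W W' (F W * (F W')⁻¹) := by
    have h3 := hF W' hW'
    rw [← hset _ _ hp] at h3
    exact (hF W hW).mul (hperm W hW) (h3.inv (hp.symm.trans (hperm W hW)))
  rw [h1]
  exact (h2.2 p hpW).2

end Pool.Agent.H54.IX
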